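import Pool.Agent.U436.HP.Poly
import Mathlib.RingTheory.MvPolynomial.Symmetric.FundamentalTheorem

/-!
# Varieties given by norms and traces over the general polynomial of degree `d`
-/

set_option autoImplicit false

namespace Pool.Agent.U436.NT

open Polynomial Finset

variable {k : Type*} [Field k] {d : ℕ}

/-- The coefficients (without the leading one) of the monic polynomial with the roots `t`. -/
noncomputable def cf (t : Fin d → k) (i : Fin d) : k := (∏ j, (X - C (t j))).coeff i

lemma monic_root (t : Fin d → k) : (∏ j, (X - C (t j))).Monic := monic_prod_X_sub_C _ _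

lemma natDegree_root (t : Fin d → k) : (∏ j, (X - C (t j))).natDegree = d := by
  rw [natDegree_prod_of_monic _ _ fun j _ => monic_X_sub_C _]; simp

lemma perm_of_prod_eq {t t' : Fin d → k} (h : ∏ j, (X - C (t j)) = ∏ j, (X - C (t' j))) :
    ∃ σ : Equiv.Perm (Fin d), ∀ j, t' j = t (σ j) := by
  obtain ⟨σ, hσ⟩ := HP.exists_perm one_ne_zero (L := fun j => X - C (t j)) (L' := fun j => X - C (t' j))
    (fun j => ⟨X_sub_C_ne_zero _, (natDegree_X_sub_C _).le⟩)
    (fun j => ⟨X_sub_C_ne_zero _, (natDegree_X_sub_C _).le⟩) (by rw [h, C_1, one_mul])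
  refine ⟨σ, fun j => ?_⟩
  obtain ⟨u, hu0, hu⟩ := hσ j
  have h1 := congrArg (fun P : k[X] => P.coeff 1) hu
  simp [coeff_X_one] at h1
  have h2 := congrArg (fun P : k[X] => P.coeff 0) hu
  simp [← h1] at h2
  exact h2

lemma prod_eq_of_cf {t t' : Fin d → k} (h : cf t = cf t') : ∏ j, (X - C (t j)) = ∏ j, (X - C (t' j)) := by
  ext i
  rcases lt_trichotomy i d with hi | rfl | hi
  · exact congrFun h ⟨i, hi⟩
  · have h1 := monic_root t
    have h2 := monic_root t'
    unfold Monic leadingCoeff at h1 h2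
    rw [natDegree_root] at h1 h2
    rw [h1, h2]
  · rw [coeff_eq_zero_of_natDegree_lt (by rw [natDegree_root]; exact hi),
      coeff_eq_zero_of_natDegree_lt (by rw [natDegree_root]; exact hi)]

lemma cf_eq_iff {t t' : Fin d → k} : cf t = cf t' ↔ ∃ σ : Equiv.Perm (Fin d), ∀ j, t' j = t (σ j) := by
  constructor
  · intro h
    exact perm_of_prod_eq (prod_eq_of_cf h)
  · rintro ⟨σ, h⟩
    ext i
    unfold cf
    congr 1
    rw [← Equiv.prod_comp σ (fun j => X - C (t j))]
    exact Finset.prod_congr rfl fun j _ => by rw [h]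

lemma exists_cf [IsAlgClosed k] (a : Fin d → k) : ∃ t, cf t = a := by
  classical
  set P : k[X] := X ^ d + ∑ i : Fin d, C (a i) * X ^ (i : ℕ) with hP
  have hlow : (∑ i : Fin d, C (a i) * X ^ (i : ℕ)).degree < (d : WithBot ℕ) := by
    refine (degree_sum_fin_lt a)
  have hmon : P.Monic := monic_X_pow_add hlow
  have hdeg : P.natDegree = d := by
    have : P.degree = d := by
      rw [hP, add_comm]
      exact degree_add_eq_right_of_degree_lt (by rw [degree_X_pow]; exact hlow) |>.trans (degree_X_pow d)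
    exact natDegree_eq_of_degree_eq_some this
  have hsp : P.Splits := IsAlgClosed.splits P
  have hcard : Multiset.card P.roots = d := by rw [← hdeg]; exact hsp.natDegree_eq_card_roots.symm
  obtain ⟨t, ht⟩ : ∃ t : Fin d → k, P = ∏ j, (X - C (t j)) := by
    have h1 : P = (P.roots.map fun a => X - C a).prod := by
      have := hsp.eq_prod_roots
      rw [hmon.leadingCoeff, C_1, one_mul] at this
      exact this
    obtain ⟨l, hl⟩ : ∃ l : List k, (l : Multiset k) = P.roots := Quot.exists_rep _
    have hlen : l.length = d := by rw [← hcard, ← hl]; rfl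
    clear_value P
    subst hlen
    refine ⟨fun j => l.get j, ?_⟩
    rw [h1, ← hl, Multiset.map_coe, Multiset.prod_coe, ← List.prod_ofFn]
    congr 1
    refine List.ext_getElem (by simp) fun i h1 h2 => ?_
    simp
  refine ⟨t, ?_⟩
  ext i
  unfold cf
  rw [← ht, hP, coeff_add, coeff_X_pow, if_neg (by have := i.2; omega), zero_add, finsetSum_coeff,
    Finset.sum_eq_single i]
  · simp
  · intro l _ hl
    rw [coeff_C_mul, coeff_X_pow, if_neg (fun h => hl (Fin.ext h.symm)), mul_zero]
  · intro h; exact absurd (mem_univ i) h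

/-- A symmetric function of the roots is a polynomial in the coefficients. -/
lemma exists_symm (φ : MvPolynomial (Fin d) k) (hφ : φ.IsSymmetric) :
    ∃ F : MvPolynomial (Fin d) k, ∀ t : Fin d → k, MvPolynomial.eval (cf t) F = MvPolynomial.eval t φ := by
  obtain ⟨Φ, hΦ⟩ := MvPolynomial.esymmAlgHom_surjective k (σ := Fin d) (n := d) (by simp) ⟨φ, hφ⟩
  have hΦ' : MvPolynomial.aeval (fun i : Fin d => MvPolynomial.esymm (Fin d) k (i + 1)) Φ = φ := by
    rw [← MvPolynomial.esymmAlgHom_apply, hΦ]
  refine ⟨MvPolynomial.aeval (fun i : Fin d => MvPolynomial.C ((-1) ^ ((i : ℕ) + 1)) *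
    MvPolynomial.X (Fin.rev i)) Φ, fun t => ?_⟩
  rw [← hΦ']
  rw [← MvPolynomial.coe_aeval_eq_eval, ← MvPolynomial.coe_aeval_eq_eval]
  show MvPolynomial.aeval (cf t) _ = MvPolynomial.aeval t _
  rw [MvPolynomial.comp_aeval_apply, MvPolynomial.comp_aeval_apply]
  congr 2
  funext i
  rw [map_mul, MvPolynomial.aeval_X, MvPolynomial.aeval_esymm_eq_multiset_esymm]
  have h1 : (∏ j, (X - C (t j))) = ((univ.val.map t).map fun a => X - C a).prod := by
    rw [Multiset.map_map]; rfl
  have hcard : Multiset.card (univ.val.map t) = d := by simp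
  have h2 : cf t (Fin.rev i) = (-1) ^ ((i : ℕ) + 1) * (univ.val.map t).esymm (i + 1) := by
    unfold cf
    rw [h1, Multiset.prod_X_sub_C_coeff _ (by rw [hcard]; exact (Fin.rev i).2.le), hcard]
    have : d - (Fin.rev i : ℕ) = i + 1 := by rw [Fin.val_rev]; have := i.2; omega
    rw [this]
  rw [h2]
  simp only [map_pow, map_neg, map_one, MvPolynomial.aeval_C]
  rw [← mul_assoc, ← mul_pow]
  simp

end Pool.Agent.U436.NT
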