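import Pool.Agent.U436.NT.Main

/-!
# Norm-trace coverings of affine space as finite quotients of powers of curves
-/

set_option autoImplicit false

namespace Pool.Agent.U436.NT

open Polynomial Finset

variable {k : Type*} [Field k] {d r s : ℕ}

/-- The curve `w i ^ (p ^ e i) - w i = f i (t)`, `v i ^ n i = g i (t)`. -/
def curve (p : ℕ) (f : Fin r → k[X]) (e : Fin r → ℕ) (g : Fin s → k[X]) (n : Fin s → ℕ) :
    Set (k × (Fin r → k) × (Fin s → k)) :=
  {u | (∀ i, u.2.1 i ^ p ^ e i - u.2.1 i = (f i).eval u.1) ∧ ∀ i, u.2.2 i ^ n i = (g i).eval u.1}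

/-- The variety `z i ^ (p ^ e i) - z i = F i (a)`, `y i ^ n i = G i (a)`. -/
def variety (p : ℕ) (F : Fin r → MvPolynomial (Fin d) k) (e : Fin r → ℕ)
    (G : Fin s → MvPolynomial (Fin d) k) (n : Fin s → ℕ) : Set ((Fin d → k) × (Fin r → k) × (Fin s → k)) :=
  {x | (∀ i, x.2.1 i ^ p ^ e i - x.2.1 i = MvPolynomial.eval x.1 (F i)) ∧
    ∀ i, x.2.2 i ^ n i = MvPolynomial.eval x.1 (G i)}

/-- The map `(t j, w j, v j) ↦ (coefficients of ∏ (X - t j), ∑ w j, ∏ v j)`. -/
noncomputable def prodMap (u : Fin d → k × (Fin r → k) × (Fin s → k)) :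
    (Fin d → k) × (Fin r → k) × (Fin s → k) :=
  (cf fun j => (u j).1, fun i => ∑ j, (u j).2.1 i, fun i => ∏ j, (u j).2.2 i)

/-- Traces and norms are polynomials in the coefficients. -/
lemma exists_trace (f : k[X]) :
    ∃ F : MvPolynomial (Fin d) k, ∀ t : Fin d → k, MvPolynomial.eval (cf t) F = ∑ j, f.eval (t j) := by
  obtain ⟨F, hF⟩ := exists_symm (∑ j : Fin d, (Polynomial.aeval (MvPolynomial.X j : MvPolynomial (Fin d) k)) f)
    (by
      intro σ
      rw [map_sum, ← Equiv.sum_comp σ (fun j => (Polynomial.aeval (MvPolynomial.X j : MvPolynomial (Fin d) k)) f)]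
      refine Finset.sum_congr rfl fun j _ => ?_
      rw [← Polynomial.aeval_algHom_apply, MvPolynomial.rename_X])
  refine ⟨F, fun t => ?_⟩
  rw [hF, map_sum]
  refine Finset.sum_congr rfl fun j _ => ?_
  rw [← MvPolynomial.coe_aeval_eq_eval]
  show MvPolynomial.aeval t _ = _
  rw [← Polynomial.aeval_algHom_apply, MvPolynomial.aeval_X]
  simp

lemma exists_norm (f : k[X]) :
    ∃ F : MvPolynomial (Fin d) k, ∀ t : Fin d → k, MvPolynomial.eval (cf t) F = ∏ j, f.eval (t j) := by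
  obtain ⟨F, hF⟩ := exists_symm (∏ j : Fin d, (Polynomial.aeval (MvPolynomial.X j : MvPolynomial (Fin d) k)) f)
    (by
      intro σ
      rw [map_prod, ← Equiv.prod_comp σ (fun j => (Polynomial.aeval (MvPolynomial.X j : MvPolynomial (Fin d) k)) f)]
      refine Finset.prod_congr rfl fun j _ => ?_
      rw [← Polynomial.aeval_algHom_apply, MvPolynomial.rename_X])
  refine ⟨F, fun t => ?_⟩
  rw [hF, map_prod]
  refine Finset.prod_congr rfl fun j _ => ?_
  rw [← MvPolynomial.coe_aeval_eq_eval]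
  show MvPolynomial.aeval t _ = _
  rw [← Polynomial.aeval_algHom_apply, MvPolynomial.aeval_X]
  simp

section

variable {p : ℕ} {f : Fin r → k[X]} {e : Fin r → ℕ} {g : Fin s → k[X]} {n : Fin s → ℕ}
  {F : Fin r → MvPolynomial (Fin d) k} {G : Fin s → MvPolynomial (Fin d) k}

theorem prodMap_mem [Fact p.Prime] [CharP k p]
    (hF : ∀ (t : Fin d → k) i, MvPolynomial.eval (cf t) (F i) = ∑ j, (f i).eval (t j))
    (hG : ∀ (t : Fin d → k) i, MvPolynomial.eval (cf t) (G i) = ∏ j, (g i).eval (t j))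
    {u : Fin d → k × (Fin r → k) × (Fin s → k)} (hu : ∀ j, u j ∈ curve p f e g n) :
    prodMap u ∈ variety p F e G n := by
  refine ⟨fun i => ?_, fun i => ?_⟩
  · show (∑ j, (u j).2.1 i) ^ p ^ e i - ∑ j, (u j).2.1 i = MvPolynomial.eval (cf fun j => (u j).1) (F i)
    rw [hF, sum_pow_char_pow, ← Finset.sum_sub_distrib]
    exact Finset.sum_congr rfl fun j _ => (hu j).1 i
  · show (∏ j, (u j).2.2 i) ^ n i = MvPolynomial.eval (cf fun j => (u j).1) (G i)
    rw [hG, ← Finset.prod_pow]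
    exact Finset.prod_congr rfl fun j _ => (hu j).2 i

lemma exists_as [IsAlgClosed k] [Fact p.Prime] {a : ℕ} (ha : a ≠ 0) (c : k) : ∃ w : k, w ^ p ^ a - w = c := by
  have hp : 1 < p ^ a := Nat.one_lt_pow ha (Fact.out : p.Prime).one_lt
  have h1 : (X ^ p ^ a - X - C c : k[X]).degree ≠ 0 := by
    have h2 : (X ^ p ^ a - X - C c : k[X]).degree = (p ^ a : ℕ) := by
      rw [sub_sub]
      rw [degree_sub_eq_left_of_degree_lt, degree_X_pow]
      rw [degree_X_pow]
      refine lt_of_le_of_lt (degree_add_le _ _) (max_lt ?_ ?_)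
      · rw [degree_X]; exact_mod_cast hp
      · exact lt_of_le_of_lt degree_C_le (by exact_mod_cast (by omega : 0 < p ^ a))
    rw [h2]
    exact_mod_cast (by omega : p ^ a ≠ 0)
  obtain ⟨w, hw⟩ := IsAlgClosed.exists_root _ h1
  refine ⟨w, ?_⟩
  rw [IsRoot, eval_sub, eval_sub, eval_pow, eval_X, eval_C, sub_eq_zero] at hw
  exact hw

theorem prodMap_surj [IsAlgClosed k] [Fact p.Prime] [CharP k p] (hd : 1 ≤ d) (he : ∀ i, e i ≠ 0)
    (hn : ∀ i, n i ≠ 0)
    (hF : ∀ (t : Fin d → k) i, MvPolynomial.eval (cf t) (F i) = ∑ j, (f i).eval (t j))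
    (hG : ∀ (t : Fin d → k) i, MvPolynomial.eval (cf t) (G i) = ∏ j, (g i).eval (t j))
    {x : (Fin d → k) × (Fin r → k) × (Fin s → k)} (hx : x ∈ variety p F e G n) :
    ∃ u : Fin d → k × (Fin r → k) × (Fin s → k), (∀ j, u j ∈ curve p f e g n) ∧ prodMap u = x := by
  classical
  obtain ⟨a, z, y⟩ := x
  obtain ⟨t, rfl⟩ := exists_cf a
  obtain ⟨hz, hy⟩ := hx
  simp only at hz hy
  choose w hw using fun (j : Fin d) (i : Fin r) => exists_as (p := p) (he i) ((f i).eval (t j))
  choose v hv using fun (j : Fin d) (i : Fin s) =>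
    IsAlgClosed.exists_pow_nat_eq ((g i).eval (t j)) (Nat.pos_of_ne_zero (hn i))
  have hδ : ∀ i, (z i - ∑ j, w j i) ^ p ^ e i = z i - ∑ j, w j i := by
    intro i
    rw [sub_pow_char_pow, sum_pow_char_pow, sub_eq_sub_iff_sub_eq_sub, ← Finset.sum_sub_distrib, hz, hF]
    exact Finset.sum_congr rfl fun j _ => (hw j i).symm
  have hζ : ∀ i, ∃ ζ : k, ζ ^ n i = 1 ∧ y i = ζ * ∏ j, v j i := by
    intro i
    have hpow : y i ^ n i = (∏ j, v j i) ^ n i := by
      rw [hy, hG, ← Finset.prod_pow]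
      exact Finset.prod_congr rfl fun j _ => (hv j i).symm
    by_cases h0 : ∏ j, v j i = 0
    · refine ⟨1, one_pow _, ?_⟩
      rw [h0, zero_pow (hn i)] at hpow
      rw [(pow_eq_zero_iff (hn i)).mp hpow, h0, mul_zero]
    · refine ⟨y i / ∏ j, v j i, ?_, ?_⟩
      · rw [div_pow, hpow, div_self (pow_ne_zero _ h0)]
      · rw [div_mul_cancel₀ _ h0]
  choose ζ hζ1 hζy using hζ
  let j0 : Fin d := ⟨0, hd⟩
  refine ⟨fun j => (t j, fun i => w j i + if j = j0 then (z i - ∑ j, w j i) else 0,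
    fun i => (if j = j0 then ζ i else 1) * v j i), fun j => ⟨fun i => ?_, fun i => ?_⟩, ?_⟩
  · show (w j i + if j = j0 then (z i - ∑ j, w j i) else 0) ^ p ^ e i -
      (w j i + if j = j0 then (z i - ∑ j, w j i) else 0) = (f i).eval (t j)
    rw [add_pow_char_pow]
    split_ifs
    · rw [hδ, add_sub_add_right_eq_sub, hw]
    · rw [zero_pow (pow_ne_zero _ (Fact.out : p.Prime).ne_zero), add_zero, add_zero, hw]
  · show ((if j = j0 then ζ i else 1) * v j i) ^ n i = (g i).eval (t j)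
    rw [mul_pow, hv]
    split_ifs
    · rw [hζ1, one_mul]
    · rw [one_pow, one_mul]
  · refine Prod.ext rfl (Prod.ext (funext fun i => ?_) (funext fun i => ?_))
    · show ∑ j, (w j i + if j = j0 then (z i - ∑ j, w j i) else 0) = z i
      rw [Finset.sum_add_distrib, Finset.sum_ite_eq' univ j0, if_pos (mem_univ _)]
      ring
    · show ∏ j, ((if j = j0 then ζ i else 1) * v j i) = y i
      rw [Finset.prod_mul_distrib, Finset.prod_ite_eq' univ j0, if_pos (mem_univ _), hζy i]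

theorem prodMap_eq_iff [Fact p.Prime] [CharP k p] (hn : ∀ i, n i ≠ 0)
    {u u' : Fin d → k × (Fin r → k) × (Fin s → k)} (hu : ∀ j, u j ∈ curve p f e g n)
    (hu' : ∀ j, u' j ∈ curve p f e g n) :
    prodMap u = prodMap u' ↔
      ∃ (σ : Equiv.Perm (Fin d)) (α : Fin d → Fin r → k) (β : Fin d → Fin s → k),
        (∀ j i, α j i ^ p ^ e i = α j i) ∧ (∀ i, ∑ j, α j i = 0) ∧ (∀ j i, β j i ^ n i = 1) ∧
          (∀ i, ∏ j, β j i = 1) ∧
            ∀ j, u' j = ((u (σ j)).1, fun i => (u (σ j)).2.1 i + α j i, fun i => β j i * (u (σ j)).2.2 i) := by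
  classical
  constructor
  · intro h
    have h1 : cf (fun j => (u j).1) = cf (fun j => (u' j).1) := congrArg Prod.fst h
    have h2 : ∀ i, ∑ j, (u j).2.1 i = ∑ j, (u' j).2.1 i := fun i =>
      congrFun (congrArg (fun x => x.2.1) h) i
    have h3 : ∀ i, ∏ j, (u j).2.2 i = ∏ j, (u' j).2.2 i := fun i =>
      congrFun (congrArg (fun x => x.2.2) h) i
    obtain ⟨σ, hσ⟩ := cf_eq_iff.mp h1
    have hpow : ∀ j i, (u' j).2.2 i ^ n i = (u (σ j)).2.2 i ^ n i := by
      intro j i
      rw [(hu' j).2 i, (hu (σ j)).2 i, hσ]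
    have hz0 : ∀ j i, ∃ z : k, z ^ n i = 1 ∧ (u' j).2.2 i = z * (u (σ j)).2.2 i := by
      intro j i
      by_cases h0 : (u (σ j)).2.2 i = 0
      · refine ⟨1, one_pow _, ?_⟩
        have := hpow j i
        rw [h0, zero_pow (hn i)] at this
        rw [(pow_eq_zero_iff (hn i)).mp this, h0]; ring
      · refine ⟨(u' j).2.2 i / (u (σ j)).2.2 i, ?_, ?_⟩
        · rw [div_pow, hpow j i, div_self (pow_ne_zero _ h0)]
        · rw [div_mul_cancel₀ _ h0]
    choose z hz1 hz using hz0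
    have hcomp : ∀ i, (∏ j, z j i) * ∏ j, (u j).2.2 i = ∏ j, (u j).2.2 i := by
      intro i
      rw [← Equiv.prod_comp σ (fun j => (u j).2.2 i), ← Finset.prod_mul_distrib,
        Equiv.prod_comp σ (fun j => (u j).2.2 i), h3 i]
      exact Finset.prod_congr rfl fun j _ => (hz j i).symm
    have hfin : ∀ i, ∃ b : Fin d → k, (∀ j, b j ^ n i = 1) ∧ ∏ j, b j = 1 ∧
        (∀ j, (u' j).2.2 i = b j * (u (σ j)).2.2 i) := by
      intro i
      by_cases hi : ∏ j, (u j).2.2 i = 0
      · obtain ⟨j1, _, hj1⟩ := Finset.prod_eq_zero_iff.mp hi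
        set j0 := σ.symm j1 with hj0
        have hy0 : (u (σ j0)).2.2 i = 0 := by rw [hj0, Equiv.apply_symm_apply]; exact hj1
        have hz0 : ∀ j, z j i ≠ 0 := by
          intro j h0
          have := hz1 j i
          rw [h0, zero_pow (hn i)] at this
          exact zero_ne_one this
        refine ⟨Function.update (fun j => z j i) j0 (∏ j ∈ univ.erase j0, z j i)⁻¹, fun j => ?_, ?_,
          fun j => ?_⟩
        · by_cases hj : j = j0
          · subst hj
            rw [Function.update_self, inv_pow, ← Finset.prod_pow]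
            simp [hz1]
          · rw [Function.update_of_ne hj]; exact hz1 j i
        · rw [← Finset.mul_prod_erase univ _ (mem_univ j0), Function.update_self]
          rw [Finset.prod_congr rfl fun j hj => Function.update_of_ne (Finset.ne_of_mem_erase hj) _ _]
          rw [inv_mul_cancel₀ (Finset.prod_ne_zero_iff.mpr fun j _ => hz0 j)]
        · by_cases hj : j = j0
          · rw [hj, hz j0 i, hy0]; ring
          · rw [Function.update_of_ne hj]; exact hz j i
      · exact ⟨fun j => z j i, fun j => hz1 j i,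
          mul_right_cancel₀ hi ((hcomp i).trans (one_mul _).symm), fun j => hz j i⟩
    choose b hb1 hb2 hb3 using hfin
    refine ⟨σ, fun j i => (u' j).2.1 i - (u (σ j)).2.1 i, fun j i => b i j, fun j i => ?_, fun i => ?_,
      fun j i => hb1 i j, hb2, fun j => ?_⟩
    · rw [sub_pow_char_pow, sub_eq_sub_iff_sub_eq_sub, (hu' j).1 i, (hu (σ j)).1 i, hσ]
    · rw [Finset.sum_sub_distrib, Equiv.sum_comp σ (fun j => (u j).2.1 i), h2 i, sub_self]
    · refine Prod.ext (hσ j) (Prod.ext (funext fun i => ?_) (funext fun i => hb3 i j))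
      show (u' j).2.1 i = (u (σ j)).2.1 i + ((u' j).2.1 i - (u (σ j)).2.1 i)
      ring
  · rintro ⟨σ, α, β, hα, hα0, hβ, hβ1, h⟩
    refine Prod.ext ?_ (Prod.ext (funext fun i => ?_) (funext fun i => ?_))
    · exact cf_eq_iff.mpr ⟨σ, fun j => by rw [h j]⟩
    · show ∑ j, (u j).2.1 i = ∑ j, (u' j).2.1 i
      have e1 : ∀ j ∈ univ, (u' j).2.1 i = (u (σ j)).2.1 i + α j i := fun j _ => by rw [h j]
      rw [Finset.sum_congr rfl e1, Finset.sum_add_distrib, hα0, add_zero,
        Equiv.sum_comp σ (fun j => (u j).2.1 i)]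
    · show ∏ j, (u j).2.2 i = ∏ j, (u' j).2.2 i
      have e1 : ∀ j ∈ univ, (u' j).2.2 i = β j i * (u (σ j)).2.2 i := fun j _ => by rw [h j]
      rw [Finset.prod_congr rfl e1, Finset.prod_mul_distrib, hβ1, one_mul,
        Equiv.prod_comp σ (fun j => (u j).2.2 i)]

end

end Pool.Agent.U436.NT
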